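import Pool.Agent.H.MP_260507_an.J

namespace Pool.Agent.Results.MP_e1010f_an.RigidSync
open Pool.Agent.H.MP_260507_an

theorem result {C A NT AT : Type} [Fintype C] [Fintype A] (G : Network C A NT AT)
    (n : ℕ∞) (hn : 1 ≤ n) (f : G.State → G.State) (hf : G.Admissible n f)
    (x : ℝ → G.State) (T : ℝ) (hx : HyperbolicOrbit f x T)
    (hr : G.Rigid n f x T fun y _ => ∀ c d, G.Sync x c d → G.Sync y c d) :
    ∀ c d, G.Sync x c d → G.nodeType c = G.nodeType d ∧
      ∃ β : G.In c ≃ G.In d, G.TypePres β ∧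
        ∀ e : G.In c, G.Sync x (G.tail e.1) (G.tail (β e).1) :=
  Network.rigid_sync hn hf hx hr

end Pool.Agent.Results.MP_e1010f_an.RigidSync
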